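import Pool.Agent.Helper17.SA.St4
import Pool.Agent.Helper15.SA.M_MN2
import Pool.Agent.Helper72.SA.M_MN

/-!
# Module MNH of project SA: the main lemma with Hit
-/

set_option autoImplicit false

open scoped Pointwise

namespace Pool.Agent.Helper93.SA

open Equiv Pool.Agent.Helper17.SA Pool.Agent.Helper15.SA Pool.Agent.Helper72.SA

theorem pMNH : StPER → StMN1 → StCHO → StMNH := by
  classical
  intro hPER hMN1 hCHO
  intro Ω _ S _ _ hsim hna hhit ι _ p R c hp hinj hR hcomm htwo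
  obtain ⟨σ, hσ1, hσ2⟩ := hPER Ω S hsim hna
  have hrel := fun i => hMN1 Ω S hsim hna (R i)
  -- the Sylow subgroups and the regular element
  have hmain : ∃ (V V' : ∀ ω, Sylow 2 (S ω)) (n0 : ∀ ω, S ω),
      (∀ ω, Rg (V' ω : Subgroup (S ω)) (V ω : Subgroup (S ω)) (n0 ω)) ∧
      ∀ i, p i = 2 → (∀ a : ∀ ω, S ω, (∀ ω, a ω ∈ V ω) → MulAut.conj a ∈ R i) ∧
        (∀ ω, ∀ a ∈ V' ω, c i ω * a * (c i ω)⁻¹ ∈ V ω) ∧
        (∀ y ∈ R i, MulAut.conj (c i * n0) * y * (MulAut.conj (c i * n0))⁻¹ ∈ R i → y = 1) := by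
    by_cases hex : ∃ i, p i = 2
    · obtain ⟨i0, hi0⟩ := hex
      obtain ⟨⟨V, hV⟩, n2, hn2⟩ := htwo i0 hi0
      have hmem : ∀ ω (a : S ω), a ∈ (c i0 ω)⁻¹ • V ω ↔ c i0 ω * a * (c i0 ω)⁻¹ ∈ V ω := by
        intro ω a
        rw [← SetLike.mem_coe, ← SetLike.mem_coe, ← Sylow.coe_coe, ← Sylow.coe_coe,
          SetLike.mem_coe, SetLike.mem_coe, Sylow.coe_subgroup_smul,
          Subgroup.mem_pointwise_smul_iff_inv_smul_mem]
        have : (MulAut.conj (c i0 ω)⁻¹)⁻¹ • a = c i0 ω * a * (c i0 ω)⁻¹ := by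
          rw [← map_inv, inv_inv]
          rfl
        rw [this]
      refine ⟨V, fun ω => (c i0 ω)⁻¹ • V ω, n2, ?_, ?_⟩
      · intro ω y hy hy'
        have hy2 : n2 ω * y * (n2 ω)⁻¹ ∈ (c i0 ω)⁻¹ • V ω := hy'
        rw [hmem] at hy2
        have hyV : y ∈ V ω := hy
        have hs : ∀ z : S ω, z ∈ V ω → MulAut.conj (Pi.mulSingle ω z : ∀ ω, S ω) ∈ R i0 := by
          intro z hz
          apply hV
          intro ω'
          by_cases h : ω' = ω
          · subst h
            rw [Pi.mulSingle_eq_same]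
            exact hz
          · rw [Pi.mulSingle_eq_of_ne h]
            exact one_mem _
        have h1 := hn2 _ (hs y hyV) (by
          rw [← map_inv, ← map_mul, ← map_mul]
          have h3 : (c i0 * n2) * Pi.mulSingle ω y * (c i0 * n2)⁻¹ =
              Pi.mulSingle ω (c i0 ω * (n2 ω * y * (n2 ω)⁻¹) * (c i0 ω)⁻¹) := by
            rw [← MulAut.conj_apply, conj_single, Pi.mul_apply]
            congr 1
            group
          rw [h3]
          exact hs _ hy2)
        have h4 : MulAut.conj y = (1 : MulAut (S ω)) := by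
          ext b
          have h5 := DFunLike.congr_fun h1 (Pi.mulSingle ω b)
          rw [conj_single, Pi.mulSingle_eq_same, MulAut.one_apply] at h5
          rw [MulAut.conj_apply, MulAut.one_apply]
          exact Pi.mulSingle_injective ω h5
        exact mn2_conj_inj (hsim ω) (hna ω) (by rw [h4, map_one])
      · intro i hi
        have hii : i = i0 := hinj (by rw [hi, hi0])
        subst hii
        exact ⟨hV, fun ω a ha => (hmem ω a).mp ha, hn2⟩
    · choose V n0 hn0 using fun ω => (hhit ω).1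
      exact ⟨V, V, n0, hn0, fun i hi => absurd ⟨i, hi⟩ hex⟩
  obtain ⟨V, V', n0, hreg, hi2⟩ := hmain
  let g : ∀ ω, Set (S ω) := fun ω => {n | InD (V' ω : Subgroup (S ω)) (V ω : Subgroup (S ω)) (n0 ω) n ∧
    ∀ i : {i : ι // p i ≠ 2}, ∀ t ∈ Res (R i.1) ω,
      MulAut.conj (c i.1 ω * n) * t * (MulAut.conj (c i.1 ω * n))⁻¹ ∈ Res (R i.1) ω → t = 1}
  have hp' : ∀ i : {i : ι // p i ≠ 2}, (p i.1).Prime := fun i => hp i.1
  have hinj' : Function.Injective fun i : {i : ι // p i ≠ 2} => p i.1 :=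
    hinj.comp Subtype.val_injective
  have hF : ∀ (i : {i : ι // p i ≠ 2}) (ω : Ω), ∃ F : Finset (S ω), (∀ n ∈ F, n ∈ g ω) ∧
      F.card = kap (p i.1) + 1 ∧
        ∀ n ∈ F, ∀ n' ∈ F, Rel (R i.1) ω ω (c i.1 ω * n) (c i.1 ω * n') → n = n' := by
    intro i ω
    obtain ⟨n, n', h1, h2, h3, h4, h5⟩ := (hhit ω).2 (V ω) (V' ω) (n0 ω) (hreg ω)
      {i : ι // p i ≠ 2} (fun i => p i.1) hp' hinj' (fun i => i.2)
      (fun i => Res (R i.1) ω) (fun i => c i.1 ω)
      (fun i => (hrel i.1).2.2.2 (p i.1) (hR i.1) ω) i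
    have hne : n ≠ n' := by
      intro h
      apply h5 1 (one_mem _) 1 (one_mem _)
      rw [one_mul, mul_one, h]
    have hnr : ¬ Rel (R i.1) ω ω (c i.1 ω * n) (c i.1 ω * n') := by
      intro h
      obtain ⟨t, ht, t', ht', h6⟩ := mn2_rel (R i.1) ω _ _ h
      exact h5 t ht t' ht' h6
    refine ⟨{n, n'}, ?_, ?_, ?_⟩
    · intro m hm
      rw [Finset.mem_insert, Finset.mem_singleton] at hm
      rcases hm with rfl | rfl
      · exact ⟨h1, h3⟩
      · exact ⟨h2, h4⟩
    · rw [Finset.card_pair hne, kap, if_neg i.2]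
    · intro m hm m' hm' hmm
      rw [Finset.mem_insert, Finset.mem_singleton] at hm hm'
      rcases hm with rfl | rfl <;> rcases hm' with rfl | rfl
      · rfl
      · exact absurd hmm hnr
      · exact absurd ((hrel i.1).2.1 ω ω _ _ hmm) hnr
      · rfl
  have hgne : ∀ ω, (g ω).Nonempty := by
    intro ω
    by_cases hι : Nonempty {i : ι // p i ≠ 2}
    · obtain ⟨i⟩ := hι
      obtain ⟨F, hF1, hF2, _⟩ := hF i ω
      have : F.Nonempty := by
        rw [← Finset.card_pos, hF2]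
        omega
      obtain ⟨n, hn⟩ := this
      exact ⟨n, hF1 n hn⟩
    · refine ⟨n0 ω, ⟨1, one_mem _, 1, one_mem _, ?_⟩, fun i => absurd ⟨i⟩ hι⟩
      rw [one_mul, mul_one]
  let s : ι → Setoid (Σ ω, S ω) := fun i =>
    { r := fun a b => Rel (R i) a.1 b.1 a.2 b.2
      iseqv :=
        { refl := fun a => (hrel i).1 a.1 a.2
          symm := fun {a b} h => (hrel i).2.1 a.1 b.1 a.2 b.2 h
          trans := fun {a b d} h h' => (hrel i).2.2.1 a.1 b.1 d.1 a.2 b.2 d.2 h h' } }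
  let col : ∀ (i : {i : ι // p i ≠ 2}) (ω : Ω), S ω → Quotient (s i.1) :=
    fun i ω n => Quotient.mk (s i.1) ⟨ω, c i.1 ω * n⟩
  have hcol : ∀ (i : {i : ι // p i ≠ 2}) ω ω' (n : S ω) (n' : S ω'), col i ω n = col i ω' n' →
      Rel (R i.1) ω ω' (c i.1 ω * n) (c i.1 ω' * n') := by
    intro i ω ω' n n' h
    exact Quotient.exact h
  obtain ⟨n, hn1, hn2⟩ := hCHO Ω {i : ι // p i ≠ 2} (fun i => p i.1) (fun i => (R i.1).map σ) S
    (fun i => Quotient (s i.1)) col g
    hp' hinj' (fun i => (hR i.1).map σ) (by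
      rintro i j hij _ ⟨y, hy, rfl⟩ _ ⟨z, hz, rfl⟩
      obtain ⟨m, hm⟩ := hcomm i.1 j.1 (fun h => hij (Subtype.ext h)) y hy z hz
      have := congrArg σ hm
      rw [map_mul, map_mul, map_mul, hσ2, one_mul] at this
      exact this) hgne (by
      intro i ω
      obtain ⟨F, hF1, hF2, hF3⟩ := hF i ω
      exact ⟨F, hF1, hF2, fun m hm m' hm' h => hF3 m hm m' hm' (hcol i ω ω m m' h)⟩)
  refine ⟨n, fun i y hy hr => ?_⟩
  by_cases hpi : p i = 2
  · obtain ⟨hV, hV', hn⟩ := hi2 i hpi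
    choose a ha b hb hab using fun ω => (hn1 ω).1
    set A : ∀ ω, S ω := fun ω => c i ω * a ω * (c i ω)⁻¹ with hA
    have hAR : MulAut.conj A ∈ R i := hV A fun ω => hV' ω (a ω) (ha ω)
    have hbR : MulAut.conj b ∈ R i := hV b hb
    have hcn : c i * n = A * (c i * n0) * b := by
      funext ω
      rw [Pi.mul_apply, hab ω]
      simp only [Pi.mul_apply, hA]
      group
    have hy' : MulAut.conj b * y * (MulAut.conj b)⁻¹ = 1 := by
      apply hn _ ((R i).mul_mem ((R i).mul_mem hbR hy) ((R i).inv_mem hbR))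
      have h1 : MulAut.conj (c i * n0) * (MulAut.conj b * y * (MulAut.conj b)⁻¹) *
          (MulAut.conj (c i * n0))⁻¹ = (MulAut.conj A)⁻¹ *
          (MulAut.conj (c i * n) * y * (MulAut.conj (c i * n))⁻¹) * MulAut.conj A := by
        rw [hcn, map_mul MulAut.conj (A * (c i * n0)) b, map_mul MulAut.conj A (c i * n0)]
        group
      rw [h1]
      exact (R i).mul_mem ((R i).mul_mem ((R i).inv_mem hAR) hr) hAR
    have h2 : y = (MulAut.conj b)⁻¹ * (MulAut.conj b * y * (MulAut.conj b)⁻¹) *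
        MulAut.conj b := by group
    rw [h2, hy']
    group
  · set x : ∀ ω, S ω := c i * n with hx
    have hxω : ∀ ω, x ω = c i ω * n ω := fun ω => rfl
    have hσy : σ y = 1 := by
      apply hn2 ⟨i, hpi⟩ (σ y) (Subgroup.mem_map_of_mem σ hy)
      intro ω
      symm
      apply Quotient.sound
      change Rel (R i) ω (σ y ω) (c i ω * n ω) (c i (σ y ω) * n (σ y ω))
      refine ⟨y, hy, _, hr, fun a => ?_⟩
      obtain ⟨b, hb⟩ := hσ1 y ω a
      refine ⟨b, hb, ?_⟩
      rw [← hxω, ← hxω, MulAut.mul_apply, MulAut.mul_apply, conj_inv_single]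
      have : (x ω)⁻¹ * (x ω * a * (x ω)⁻¹) * x ω = a := by group
      rw [this, hb, conj_single]
    have hpres : ∀ ω (a : S ω), ∃ b : S ω, y (Pi.mulSingle ω a) = Pi.mulSingle ω b := by
      intro ω a
      obtain ⟨b, hb⟩ := hσ1 y ω a
      have h1 : σ y ω = ω := by rw [hσy]; rfl
      revert b
      rw [h1]
      intro b hb
      exact ⟨b, hb⟩
    have hy1 : ∀ ω (a : S ω), y (Pi.mulSingle ω a) = Pi.mulSingle ω a := by
      intro ω a
      obtain ⟨t, ht⟩ := exists_restr y ω (hpres ω)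
      have ht1 : t = 1 := by
        apply (hn1 ω).2 ⟨i, hpi⟩ t ⟨y, hy, ht⟩
        refine ⟨_, hr, fun a => ?_⟩
        rw [← hxω, MulAut.mul_apply, MulAut.mul_apply, conj_inv_single, ht, conj_single,
          MulAut.mul_apply, MulAut.mul_apply, ← map_inv, MulAut.conj_apply, MulAut.conj_apply,
          inv_inv]
      rw [ht, ht1, MulAut.one_apply]
    have h3 : y.toMonoidHom = MonoidHom.id _ := by
      apply MonoidHom.pi_ext
      intro ω a
      exact hy1 ω a
    ext1 a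
    exact DFunLike.congr_fun h3 a

end Pool.Agent.Helper93.SA
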